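import Pool.Agent.TH344.MO.Stm
import Pool.Agent.TH344.JG.Avg
import Pool.Agent.TH841.PT.ANTX
import Pool.Agent.TH841.PT.RSP
import Pool.Agent.TH841.PT.RVU
import Pool.Agent.W358.RK2.GR

/-!
# MO-AVG: the moments over the box, with a power of the logarithm (job 5728, helper628)

Adapted from `Pool/Agent/TH344/JG/Avg.lean` (helper511) and `Pool/Agent/TH344/DT/Avg.lean`
(helper344, helper307, helper612, helper736), with the abstract summation `ANTX` of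
`Pool/Agent/TH841/PT` (helper841).
-/

set_option autoImplicit false

namespace Pool.Agent.TH344.MO

open Finset Pool.Agent.W262.RK Pool.Agent.W307.RT Pool.Agent.TH344.DT
  Pool.Agent.TH344.JG Pool.Agent.TH344.JG.AvgJ

namespace AvgXf

lemma rho_emp {J : Type} [Fintype J] (n : J → ℕ) :
    Pool.Agent.TH344.DT.rho (∅ : Finset (J → ℝ)) n = 1 := by
  classical
  refine le_antisymm (rj1 _ _) ?_
  unfold Pool.Agent.TH344.DT.rho
  rw [Finset.le_inf'_iff]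
  intro t ht
  rcases mem_insert.1 ht with rfl | h
  · simp
  · exact absurd h (notMem_empty _)

lemma DDJ_emp {J : Type} [Fintype J] : DDJ (∅ : Finset (J → ℝ)) = 1 := by
  unfold DDJ
  simp

/-- the pointwise bound without a weight -/
lemma ptwX {n : ℕ} (h1 : S_SELJ) (hn : Odd n) {a : Fin n → ℤ} (κ z y X k : ℕ) (hz : 2 ≤ z)
    (hX : 2 ≤ X) (hXk : X < (y + 1) ^ (4 * k)) (ha : Function.Injective a) (hb : a ∈ BoxJ n X) :
    ((SelJ a).ncard : ℝ) ^ κ ≤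
      (((2 ^ n) ^ (1 + z)) ^ κ) * ((2 ^ n) ^ κ) ^ (clJ z a).card *
      (((2 ^ n) ^ (8 * Fintype.card (PR n))) ^ κ) ^ k *
      ((2 ^ n) ^ κ) ^ (∑ c, (S2 z y (fJ z a) c).primeFactors.card) *
      (NV adj (S1 z y (fJ z a)) (sgJ a (∏ c, S1 z y (fJ z a) c)) : ℝ) ^ κ := by
  have h := ptwJ (T := (∅ : Finset (PR n → ℝ))) (fun t ht => absurd ht (notMem_empty _)) h1 hn
    κ z y X k hz hX hXk ha hb
  simp only [rho_emp, DDJ_emp, one_pow, mul_one] at h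
  exact h

/-- the local sums -/
lemma gp_one (c d : ℕ) :
    Pool.Agent.TH841.PT.gp (fun _ => (1 : ℝ)) c d = gw 1 c d := rfl

end AvgXf

open AvgXf

/-- **the moments over the box** -/
theorem avgx_of (h1 : Pool.Agent.TH344.JG.S_SELJ) (h2 : Pool.Agent.TH344.JG.S_CNTJ)
    (h3 : Pool.Agent.TH344.JG.S_SUBV) : S_AVGX := by
  classical
  intro n κ γ hγ hn3 hnodd hM
  have hant : Pool.Agent.TH841.PT.ANTX :=
    Pool.Agent.TH841.PT.ANTXf.antx_of Pool.Agent.W358.RK2.gr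
  obtain ⟨N, hN⟩ : ∃ N, N = Fintype.card (PR n) := ⟨_, rfl⟩
  have hN1 : 1 ≤ N := by
    rw [hN]
    refine Fintype.card_pos_iff.2 ⟨⟨(⟨0, by omega⟩, ⟨1, by omega⟩), ?_⟩⟩
    simp [Fin.lt_def]
  obtain ⟨z0, hz0⟩ := hM
  obtain ⟨z, hz⟩ : ∃ z, z = z0 + n + 2 * N + 4 := ⟨_, rfl⟩
  have hz2 : 2 ≤ z := by omega
  have hzn : 2 * Fintype.card (PR n) + 2 ≤ z := by omega
  have hzn' : 2 * N + 2 ≤ z := by omega
  obtain ⟨C', hC'⟩ := hz0 z (by omega)
  rw [← hN] at hC'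
  obtain ⟨C, A, K, y0, hC0, hA1, hK1, hcn⟩ := h2 n z hn3 (by omega) hzn
  obtain ⟨y1, hy1⟩ : ∃ y1, y1 = y0 + 6 := ⟨_, rfl⟩
  -- the constants
  obtain ⟨b, hb⟩ : ∃ b : ℝ, b = (2 ^ n : ℝ) ^ κ := ⟨_, rfl⟩
  have hb1 : 1 ≤ b := by rw [hb]; exact one_le_pow₀ (one_le_pow₀ (by norm_num))
  have hb0 : 0 ≤ b := by linarith
  obtain ⟨A1, hA1'⟩ : ∃ A1 : ℝ, A1 = b * A := ⟨_, rfl⟩
  have hA11 : 1 ≤ A1 := by
    rw [hA1']
    exact one_le_mul_of_one_le_of_one_le hb1 hA1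
  have hA10 : 0 < A1 := by linarith
  -- the power of the logarithm
  have hlog : ∀ X : ℕ, 1 ≤ X → (1 : ℝ) ≤ 1 + Real.log X := by
    intro X hX
    have h4 : (0 : ℝ) ≤ Real.log X := Real.log_nonneg (by exact_mod_cast hX)
    linarith
  have hlogy : ∀ y : ℕ, z < y → 0 < Real.log y := by
    intro y hy
    exact Real.log_pos (by exact_mod_cast (by omega : 1 < y))
  have hgwn : ∀ {y : ℕ} {s : PR n → ℕ}, s ∈ Tup (PR n) z y → ∀ j, 0 ≤ gw 1 N (s j) := by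
    intro y s hs j
    rw [← gp_one]
    exact Pool.Agent.TH841.PT.RSPf.gp_nonneg (fun _ => zero_le_one) (by omega : N ≤ z)
      ((Pool.Agent.W405.RK2.mem_Tup.1 hs).1 j)
  -- the parameters
  obtain ⟨P, hP⟩ : ∃ P : ℕ × ℕ → Prop, P = fun θ => Squarefree θ.1 ∧
    (∀ p, p.Prime → p ∣ θ.1 → z < p) ∧ θ.1 ^ 16 ≤ θ.2 ∧ 1 ≤ θ.2 := ⟨_, rfl⟩
  have key : ∃ C2 : ℝ, ∀ θ : {θ : ℕ × ℕ // P θ},
      ∑ a ∈ (BoxJ n θ.1.2).filter (fun a => Function.Injective a ∧ ∏ p ∈ clJ z a, p = θ.1.1),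
        ((SelJ a).ncard : ℝ) ^ κ ≤
        C2 * (A1 ^ θ.1.1.primeFactors.card / (θ.1.1 : ℝ) ^ 2 *
          ((θ.1.2 : ℝ) ^ n * (1 + Real.log θ.1.2) ^ γ)) := by
    refine hant (PR n) (Fin n → ℤ) {θ : ℕ × ℕ // P θ}
      (fun θ => (BoxJ n θ.1.2).filter
        (fun a => Function.Injective a ∧ ∏ p ∈ clJ z a, p = θ.1.1))
      (fun θ => Nat.sqrt (Nat.sqrt θ.1.2))
      (fun _ a => fJ z a)
      (fun θ => A1 ^ θ.1.1.primeFactors.card / (θ.1.1 : ℝ) ^ 2 *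
        ((θ.1.2 : ℝ) ^ n * (1 + Real.log θ.1.2) ^ γ)) z
      (fun y => (Real.log y) ^ ((N : ℝ) + γ))
      (fun s => NFV adj κ s * ∏ j, gw 1 N (s j))
      (fun v => ∏ j, (b ^ (v j).primeFactors.card * (gw 1 N (v j) / v j)))
      (fun w => ∏ j, ((1 : ℝ) ^ (w j).primeFactors.card / (w j : ℝ)))
      (fun _ a => ((SelJ a).ncard : ℝ) ^ κ)
      (C * (((2 ^ n) ^ (1 + z)) ^ κ))
      (((2 ^ n) ^ (8 * N)) ^ κ) K y1 hz2 (fun y hy => Real.rpow_pos_of_pos (hlogy y hy) _) ?_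
      (fun θ => ?_) (fun X0 => ?_)
      (fun θ ω hω => gdJ z (mem_filter.1 hω).2.1)
      (fun θ t => by positivity) (by positivity)
      (one_le_pow₀ (one_le_pow₀ (one_le_pow₀ (by norm_num)))) hK1
      (fun y s hs => ⟨mul_nonneg (NFV_nonneg _ _ _) (prod_nonneg fun j _ => hgwn hs j),
        prod_nonneg fun j _ => mul_nonneg (by positivity)
          (div_nonneg (hgwn hs j) (Nat.cast_nonneg _))⟩)
      (fun y Y _ w _ => prod_nonneg fun j _ => by positivity)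
      (fun lam hlam => ?_) (fun lam hlam => ?_) (fun lam hlam => ?_) ?_
    · -- the scales are positive
      rintro ⟨⟨M, X⟩, hθ⟩
      rw [hP] at hθ
      have hX1 : 1 ≤ X := hθ.2.2.2
      have : 1 ≤ Nat.sqrt X := Nat.le_sqrt.2 (by omega)
      exact Nat.le_sqrt.2 (by omega)
    · -- the sizes are nonnegative
      obtain ⟨⟨M, X⟩, hθ⟩ := θ
      rw [hP] at hθ
      have hX1 : 1 ≤ X := hθ.2.2.2
      simp only
      have h5 : 0 ≤ (1 + Real.log (X : ℝ)) ^ γ := Real.rpow_nonneg (by have := hlog X hX1; linarith) _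
      positivity
    · -- small scales
      refine ⟨∑ a ∈ (BoxJ n ((X0 + 1) ^ 4)), ((SelJ a).ncard : ℝ) ^ κ, ?_⟩
      rintro ⟨⟨M, X⟩, hθ⟩ hle
      rw [hP] at hθ
      obtain ⟨hM1, hM2, hM3, hX1⟩ := hθ
      simp only at hM1 hM2 hM3 hX1 hle ⊢
      have hXle : X ≤ (X0 + 1) ^ 4 := by
        have e1 : X < (Nat.sqrt X + 1) * (Nat.sqrt X + 1) := Nat.sqrt_lt.1 (Nat.lt_succ_self _)
        have e2 : Nat.sqrt X < (Nat.sqrt (Nat.sqrt X) + 1) * (Nat.sqrt (Nat.sqrt X) + 1) :=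
          Nat.sqrt_lt.1 (Nat.lt_succ_self _)
        have e3 : (Nat.sqrt (Nat.sqrt X) + 1) * (Nat.sqrt (Nat.sqrt X) + 1) ≤
            (X0 + 1) * (X0 + 1) := Nat.mul_le_mul (by omega) (by omega)
        have e4 : (Nat.sqrt X + 1) * (Nat.sqrt X + 1) ≤ ((X0 + 1) * (X0 + 1)) * ((X0 + 1) * (X0 + 1)) :=
          Nat.mul_le_mul (by omega) (by omega)
        calc X ≤ ((X0 + 1) * (X0 + 1)) * ((X0 + 1) * (X0 + 1)) := by omega
          _ = (X0 + 1) ^ 4 := by ring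
      have hsub : (BoxJ n X).filter (fun a => Function.Injective a ∧ ∏ p ∈ clJ z a, p = M) ⊆
          BoxJ n ((X0 + 1) ^ 4) := by
        intro a ha
        have h5 := (mem_filter.1 ha).1
        unfold BoxJ at h5 ⊢
        rw [Fintype.mem_piFinset] at h5 ⊢
        intro i
        have h6 := mem_Icc.1 (h5 i)
        have h7 : (X : ℤ) ≤ (((X0 + 1) ^ 4 : ℕ) : ℤ) := by exact_mod_cast hXle
        exact mem_Icc.2 ⟨by linarith, by linarith⟩
      have hB0 : 0 ≤ ∑ a ∈ (BoxJ n ((X0 + 1) ^ 4)), ((SelJ a).ncard : ℝ) ^ κ :=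
        sum_nonneg fun a _ => by positivity
      have hM0 : 0 < M := Nat.pos_of_ne_zero hM1.ne_zero
      have hMX : M ≤ X := (Nat.le_self_pow (by norm_num) M).trans hM3
      have hLG : (1 : ℝ) ≤ (1 + Real.log (X : ℝ)) ^ γ := Real.one_le_rpow (hlog X hX1) hγ
      have hS : (1 : ℝ) ≤ A1 ^ M.primeFactors.card / (M : ℝ) ^ 2 *
          ((X : ℝ) ^ n * (1 + Real.log (X : ℝ)) ^ γ) := by
        have hM0' : (0 : ℝ) < M := by exact_mod_cast hM0
        have e1 : (1 : ℝ) ≤ A1 ^ M.primeFactors.card := one_le_pow₀ hA11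
        have e2 : (M : ℝ) ^ 2 ≤ (X : ℝ) ^ n := by
          have : M ^ 2 ≤ X ^ n := (Nat.pow_le_pow_left hMX 2).trans
            (Nat.pow_le_pow_right hX1 (by omega))
          exact_mod_cast this
        have e3 : (X : ℝ) ^ n ≤ (X : ℝ) ^ n * (1 + Real.log (X : ℝ)) ^ γ :=
          le_mul_of_one_le_right (by positivity) hLG
        rw [div_mul_eq_mul_div, le_div_iff₀ (by positivity), one_mul]
        calc (M : ℝ) ^ 2 ≤ (X : ℝ) ^ n * (1 + Real.log (X : ℝ)) ^ γ := e2.trans e3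
          _ = 1 * ((X : ℝ) ^ n * (1 + Real.log (X : ℝ)) ^ γ) := (one_mul _).symm
          _ ≤ A1 ^ M.primeFactors.card * ((X : ℝ) ^ n * (1 + Real.log (X : ℝ)) ^ γ) :=
            mul_le_mul_of_nonneg_right e1 (by positivity)
      calc ∑ a ∈ (BoxJ n X).filter (fun a => Function.Injective a ∧ ∏ p ∈ clJ z a, p = M),
            ((SelJ a).ncard : ℝ) ^ κ
          ≤ ∑ a ∈ (BoxJ n ((X0 + 1) ^ 4)), ((SelJ a).ncard : ℝ) ^ κ :=
            sum_le_sum_of_subset_of_nonneg hsub fun a _ _ => by positivity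
        _ ≤ _ := le_mul_of_one_le_right hB0 hS
    · -- the first sum
      obtain ⟨A2, hA2⟩ := Pool.Agent.TH841.PT.RSPf.rsp (PR n) z N (fun _ _ => 1)
        (fun s => NFV adj κ s) (fun y => C' * (Real.log y) ^ ((N : ℝ) + γ)) ((2 : ℝ) ^ κ) lam hzn'
        (fun j p => ⟨zero_le_one, by exact_mod_cast hN1⟩) (one_le_pow₀ (by norm_num)) hlam
        (fun s => NFV_nonneg _ _ _)
        (fun y hy s e hse => h3 (PR n) adj κ z y hz2 s e hse)
        (fun y hy => hC' y hy)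
      refine ⟨A2 * C', fun y hy => ?_⟩
      have h5 := hA2 y hy
      rw [mul_assoc]
      exact h5
    · exact Pool.Agent.TH841.PT.RVU.rvp (PR n) z N (fun _ _ => 1) b lam hzn'
        (fun j p => ⟨zero_le_one, by exact_mod_cast hN1⟩) hb1 hlam
    · exact Pool.Agent.TH841.PT.RVU.rup (PR n) 1 lam le_rfl hlam
    -- the local majorant
    rintro ⟨⟨M, X⟩, hθ⟩ y Y k hy0 hzy hyK hk s hs v hv u hu h8 T' hT' hval
    rw [hP] at hθ
    obtain ⟨hM1, hM2, hM3, hX1⟩ := hθ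
    simp only at hM1 hM2 hM3 hX1 hyK hk h8 hT' hval ⊢
    have hLX : (Nat.sqrt (Nat.sqrt X)) ^ 4 ≤ X := by
      have e1 : Nat.sqrt (Nat.sqrt X) * Nat.sqrt (Nat.sqrt X) ≤ Nat.sqrt X := Nat.sqrt_le _
      have e2 : Nat.sqrt X * Nat.sqrt X ≤ X := Nat.sqrt_le _
      calc (Nat.sqrt (Nat.sqrt X)) ^ 4 = (Nat.sqrt (Nat.sqrt X) * Nat.sqrt (Nat.sqrt X)) *
            (Nat.sqrt (Nat.sqrt X) * Nat.sqrt (Nat.sqrt X)) := by ring
        _ ≤ Nat.sqrt X * Nat.sqrt X := Nat.mul_le_mul e1 e1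
        _ ≤ X := e2
    have hL1 : 1 ≤ Nat.sqrt (Nat.sqrt X) := by
      have : 1 ≤ Nat.sqrt X := Nat.le_sqrt.2 (by omega)
      exact Nat.le_sqrt.2 (by omega)
    have hLX' : Nat.sqrt (Nat.sqrt X) ≤ X := (Nat.le_self_pow (by norm_num) _).trans hLX
    have hyKX : y ^ K ≤ X := hyK.trans hLX'
    have hyX : y ≤ X := le_trans (Nat.le_self_pow (by omega) y) hyKX
    have hX2 : 2 ≤ X := by omega
    have hy00 : y0 ≤ y := by omega
    have hXk : X < (y + 1) ^ (4 * k) := by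
      have e1 : X < (Nat.sqrt X + 1) * (Nat.sqrt X + 1) := Nat.sqrt_lt.1 (Nat.lt_succ_self _)
      have e2 : Nat.sqrt X < (Nat.sqrt (Nat.sqrt X) + 1) * (Nat.sqrt (Nat.sqrt X) + 1) :=
        Nat.sqrt_lt.1 (Nat.lt_succ_self _)
      have e3 : (Nat.sqrt (Nat.sqrt X) + 1) * (Nat.sqrt (Nat.sqrt X) + 1) ≤
          (y + 1) ^ k * (y + 1) ^ k := Nat.mul_le_mul (by omega) (by omega)
      have e4 : (Nat.sqrt X + 1) * (Nat.sqrt X + 1) ≤
          ((y + 1) ^ k * (y + 1) ^ k) * ((y + 1) ^ k * (y + 1) ^ k) :=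
        Nat.mul_le_mul (by omega) (by omega)
      calc X < ((y + 1) ^ k * (y + 1) ^ k) * ((y + 1) ^ k * (y + 1) ^ k) := by omega
        _ = (y + 1) ^ (4 * k) := by
          rw [← pow_add, ← pow_add]
          congr 1
          ring
    have h32 : (∏ j, s j * v j * u j) ^ 32 ≤ X := by
      calc (∏ j, s j * v j * u j) ^ 32 = ((∏ j, s j * v j * u j) ^ 8) ^ 4 := by
            rw [← pow_mul]
        _ ≤ (Nat.sqrt (Nat.sqrt X)) ^ 4 := Nat.pow_le_pow_left h8 4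
        _ ≤ X := hLX
    obtain ⟨g, hg⟩ : ∃ g : Finset ℕ → ℝ, g = fun E => (NV adj s E : ℝ) ^ κ := ⟨_, rfl⟩
    have hg0 : ∀ E, 0 ≤ g E := fun E => by rw [hg]; exact pow_nonneg (Nat.cast_nonneg _) _
    obtain ⟨W, hW⟩ : ∃ W : ℝ, W = (((2 ^ n) ^ (1 + z)) ^ κ) * b ^ M.primeFactors.card *
      (((2 ^ n) ^ (8 * N)) ^ κ) ^ k * b ^ (∑ c, (v c).primeFactors.card) := ⟨_, rfl⟩
    have hW0 : 0 ≤ W := by
      rw [hW]
      positivity
    have h5 : ∀ a ∈ T', ((SelJ a).ncard : ℝ) ^ κ ≤ W * g (sgJ a (∏ c, s c)) := by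
      intro a ha
      obtain ⟨hbox, hinj, hcl⟩ := mem_filter.1 (hT' ha)
      obtain ⟨hts, htv, _⟩ := hval a ha
      have h6 := ptwX h1 hnodd κ z y X k hz2 hX2 hXk hinj hbox
      have h7 : (clJ z a).card = M.primeFactors.card := by
        rw [← hcl, Nat.primeFactors_prod fun p hp => prime_clJ hp]
      rw [hts, htv, h7, ← hN, ← hb] at h6
      rw [hW, hg]
      exact h6
    have hneg : ∀ a ∈ T', sgJ a (∏ c, s c) ∈ (∏ j, s j).primeFactors.powerset := by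
      intro a _
      rw [mem_powerset]
      exact filter_subset _ _
    have h6 : ∑ a ∈ T', g (sgJ a (∏ c, s c)) =
        ∑ E ∈ (∏ j, s j).primeFactors.powerset,
          ((T'.filter (fun a => sgJ a (∏ c, s c) = E)).card : ℝ) * g E := by
      rw [← sum_fiberwise_of_maps_to hneg]
      refine sum_congr rfl fun E _ => ?_
      rw [← nsmul_eq_mul, ← sum_const]
      refine sum_congr rfl fun t ht => ?_
      rw [(mem_filter.1 ht).2]
    obtain ⟨Q, hQ⟩ : ∃ Q : ℝ, Q = C * (A ^ M.primeFactors.card / (M : ℝ) ^ 2) * X ^ n *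
          (1 / 2) ^ (∏ j, s j).primeFactors.card *
          (∏ j, gw 1 N (s j)) * (∏ j, gw 1 N (v j) / v j) * (∏ j, 1 / (u j : ℝ)) /
          (Real.log y) ^ N := ⟨_, rfl⟩
    have h7 : ∀ E ∈ (∏ j, s j).primeFactors.powerset,
        ((T'.filter (fun a => sgJ a (∏ c, s c) = E)).card : ℝ) * g E ≤ Q * g E := by
      intro E _
      refine mul_le_mul_of_nonneg_right ?_ (hg0 E)
      have h9 := hcn X y Y M hy00 hzy hyKX hM1 hM2 hM3 s hs v hv u hu h32 E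
      rw [← hN, ← hQ] at h9
      refine le_trans ?_ h9
      refine Nat.cast_le.2 (card_le_card fun t ht => ?_)
      rw [mem_filter] at ht
      rw [mem_filter]
      obtain ⟨ht', htE⟩ := ht
      obtain ⟨hts, htv, htu⟩ := hval t ht'
      obtain ⟨hbox, hinj, hcl⟩ := mem_filter.1 (hT' ht')
      exact ⟨hbox, hinj, hcl, hts, htv, htu, htE⟩
    -- the logarithm
    have hly := hlogy y hzy
    obtain ⟨LN, hLN⟩ : ∃ LN : ℝ, LN = (Real.log y) ^ N := ⟨_, rfl⟩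
    obtain ⟨LY, hLY⟩ : ∃ LY : ℝ, LY = (Real.log y) ^ γ := ⟨_, rfl⟩
    obtain ⟨LX, hLX2⟩ : ∃ LX : ℝ, LX = (1 + Real.log (X : ℝ)) ^ γ := ⟨_, rfl⟩
    have hLN0 : 0 < LN := by rw [hLN]; exact pow_pos hly _
    have hLY0 : 0 < LY := by rw [hLY]; exact Real.rpow_pos_of_pos hly _
    have hLYX : LY ≤ LX := by
      rw [hLY, hLX2]
      refine Real.rpow_le_rpow hly.le ?_ hγ
      have h9 : Real.log y ≤ Real.log X :=
        Real.log_le_log (by exact_mod_cast (by omega : 0 < y)) (by exact_mod_cast hyX)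
      linarith
    have hH : (Real.log y) ^ ((N : ℝ) + γ) = LN * LY := by
      rw [hLN, hLY, Real.rpow_add hly, Real.rpow_natCast]
    have hNV0 : 0 ≤ NFV adj κ s := NFV_nonneg _ _ _
    have n1 : 0 ≤ ∏ j, gw 1 N (s j) := prod_nonneg fun j _ => hgwn hs j
    have n2 : 0 ≤ ∏ j, gw 1 N (v j) / v j :=
      prod_nonneg fun j _ => div_nonneg (hgwn hv j) (Nat.cast_nonneg _)
    have n3 : 0 ≤ ∏ j, 1 / (u j : ℝ) := prod_nonneg fun j _ => by positivity
    have e1 : NFV adj κ s = (1 / 2) ^ (∏ j, s j).primeFactors.card *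
        ∑ E ∈ (∏ j, s j).primeFactors.powerset, g E := by
      rw [hg]
      rfl
    have e2 : (∏ j, b ^ (v j).primeFactors.card * (gw 1 N (v j) / v j)) =
        b ^ (∑ j, (v j).primeFactors.card) * ∏ j, (gw 1 N (v j) / v j) := by
      rw [prod_mul_distrib, prod_pow_eq_pow_sum]
    have e3 : A1 ^ M.primeFactors.card = b ^ M.primeFactors.card * A ^ M.primeFactors.card := by
      rw [hA1', mul_pow]
    have e4 : (∏ j, (1 : ℝ) ^ (u j).primeFactors.card / (u j : ℝ)) = ∏ j, 1 / (u j : ℝ) := by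
      simp only [one_pow]
    -- the main part
    obtain ⟨Z, hZ⟩ : ∃ Z : ℝ, Z = (C * (((2 ^ n) ^ (1 + z)) ^ κ)) * (((2 ^ n) ^ (8 * N)) ^ κ) ^ k *
      (A1 ^ M.primeFactors.card / (M : ℝ) ^ 2 * (X : ℝ) ^ n) *
      (NFV adj κ s * ∏ j, gw 1 N (s j)) *
      (∏ j, b ^ (v j).primeFactors.card * (gw 1 N (v j) / v j)) * (∏ j, 1 / (u j : ℝ)) :=
      ⟨_, rfl⟩
    have hZ0 : 0 ≤ Z := by
      rw [hZ, e2]
      positivity
    have hmain : ∑ a ∈ T', ((SelJ a).ncard : ℝ) ^ κ ≤ Z / LN := by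
      calc ∑ a ∈ T', ((SelJ a).ncard : ℝ) ^ κ
          ≤ ∑ a ∈ T', W * g (sgJ a (∏ c, s c)) := sum_le_sum h5
        _ = W * ∑ E ∈ (∏ j, s j).primeFactors.powerset,
              ((T'.filter (fun a => sgJ a (∏ c, s c) = E)).card : ℝ) * g E := by
            rw [← mul_sum, h6]
        _ ≤ W * ∑ E ∈ (∏ j, s j).primeFactors.powerset, Q * g E :=
            mul_le_mul_of_nonneg_left (sum_le_sum h7) hW0
        _ = _ := by
            rw [← mul_sum, hZ, e1, e2, hQ, e3, hW, hLN]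
            ring
    have hfin : Z / LN ≤ Z * LX / (LN * LY) := by
      rw [div_le_div_iff₀ hLN0 (mul_pos hLN0 hLY0)]
      calc Z * (LN * LY) = (Z * LN) * LY := by ring
        _ ≤ (Z * LN) * LX := mul_le_mul_of_nonneg_left hLYX (mul_nonneg hZ0 hLN0.le)
        _ = Z * LX * LN := by ring
    refine hmain.trans (hfin.trans (le_of_eq ?_))
    rw [hH, e4, hZ, ← hLX2]
    ring
  -- the sum over `M`
  obtain ⟨C2, hC2⟩ := key
  obtain ⟨q, hq⟩ : ∃ q : ℕ, A1 ≤ q := exists_nat_ge A1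
  have hq1 : 1 ≤ q := by
    have : (1 : ℝ) ≤ q := hA11.trans hq
    exact_mod_cast this
  obtain ⟨C3, hC30, hC3⟩ := som0J q hq1
  refine ⟨z, max C2 0 * C3, by positivity, fun X hX => ?_⟩
  obtain ⟨LX, hLX2⟩ : ∃ LX : ℝ, LX = (1 + Real.log (X : ℝ)) ^ γ := ⟨_, rfl⟩
  have hLX0 : 0 ≤ LX := by
    rw [hLX2]
    exact Real.rpow_nonneg (by have := hlog X hX; linarith) _
  obtain ⟨MM, hMM⟩ : ∃ MM : Finset ℕ, MM = (Icc 1 X).filter (fun M => P (M, X)) := ⟨_, rfl⟩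
  obtain ⟨TT, hTT⟩ : ∃ TT : Finset (Fin n → ℤ), TT = (BoxJ n X).filter
    (fun a => Function.Injective a ∧ (∏ p ∈ clJ z a, p) ^ 16 ≤ X) := ⟨_, rfl⟩
  have hmaps : ∀ a ∈ TT, (∏ p ∈ clJ z a, p) ∈ MM := by
    intro a ha
    rw [hTT] at ha
    obtain ⟨hbox, hinj, hcl⟩ := mem_filter.1 ha
    have h0 : 0 < ∏ p ∈ clJ z a, p := prod_pos fun p hp => (prime_clJ hp).pos
    rw [hMM, mem_filter, hP]
    refine ⟨mem_Icc.2 ⟨h0, (Nat.le_self_pow (by norm_num) _).trans hcl⟩,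
      sqf_prodJ _ fun p hp => prime_clJ hp, fun p hp hpd => ?_, hcl, hX⟩
    have : p ∈ (∏ p ∈ clJ z a, p).primeFactors := Nat.mem_primeFactors.2 ⟨hp, hpd, h0.ne'⟩
    rw [Nat.primeFactors_prod fun p hp => prime_clJ hp] at this
    exact lt_clJ this
  have hfin : ∑ a ∈ TT, ((SelJ a).ncard : ℝ) ^ κ ≤
      max C2 0 * C3 * ((X : ℝ) ^ n * LX) := by
    rw [← sum_fiberwise_of_maps_to hmaps]
    have hM : ∀ M ∈ MM, ∑ a ∈ TT.filter (fun a => ∏ p ∈ clJ z a, p = M),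
        ((SelJ a).ncard : ℝ) ^ κ ≤
        max C2 0 * ((X : ℝ) ^ n * LX) * ((q : ℝ) ^ M.primeFactors.card / (M : ℝ) ^ 2) := by
      intro M hM
      rw [hMM] at hM
      have hPM := (mem_filter.1 hM).2
      have h5 := hC2 ⟨(M, X), hPM⟩
      simp only at h5
      rw [← hLX2] at h5
      have h6 : ∑ a ∈ TT.filter (fun a => ∏ p ∈ clJ z a, p = M),
          ((SelJ a).ncard : ℝ) ^ κ ≤
          ∑ a ∈ (BoxJ n X).filter (fun a => Function.Injective a ∧ ∏ p ∈ clJ z a, p = M),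
            ((SelJ a).ncard : ℝ) ^ κ := by
        refine sum_le_sum_of_subset_of_nonneg (fun a ha => ?_) fun a _ _ => by positivity
        rw [hTT, mem_filter, mem_filter] at ha
        rw [mem_filter]
        exact ⟨ha.1.1, ha.1.2.1, ha.2⟩
      refine h6.trans (h5.trans ?_)
      have h7 : A1 ^ M.primeFactors.card ≤ (q : ℝ) ^ M.primeFactors.card :=
        pow_le_pow_left₀ hA10.le hq _
      calc C2 * (A1 ^ M.primeFactors.card / (M : ℝ) ^ 2 * ((X : ℝ) ^ n * LX))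
          ≤ max C2 0 * (A1 ^ M.primeFactors.card / (M : ℝ) ^ 2 * ((X : ℝ) ^ n * LX)) :=
            mul_le_mul_of_nonneg_right (le_max_left _ _) (by positivity)
        _ ≤ max C2 0 * ((q : ℝ) ^ M.primeFactors.card / (M : ℝ) ^ 2 * ((X : ℝ) ^ n * LX)) := by
            gcongr
        _ = _ := by ring
    refine (sum_le_sum hM).trans ?_
    rw [← mul_sum]
    have h8 : ∑ M ∈ MM, (q : ℝ) ^ M.primeFactors.card / (M : ℝ) ^ 2 ≤ C3 := by
      refine le_trans ?_ (hC3 X)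
      rw [hMM]
      exact sum_le_sum_of_subset_of_nonneg (filter_subset _ _) fun a _ _ => by positivity
    calc max C2 0 * ((X : ℝ) ^ n * LX) * ∑ M ∈ MM, (q : ℝ) ^ M.primeFactors.card / (M : ℝ) ^ 2
        ≤ max C2 0 * ((X : ℝ) ^ n * LX) * C3 :=
          mul_le_mul_of_nonneg_left h8 (by positivity)
      _ = _ := by ring
  rw [hTT, hLX2] at hfin
  convert hfin using 2

end Pool.Agent.TH344.MO
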