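import Mathlib
import Pool.Agent.TH344.JG.Stm
import Pool.Agent.TH344.JG.Stm2

/-! Project MO: the exact order of the moments over all the points of the box, statements of the
parts. -/

set_option autoImplicit false

namespace Pool.Agent.TH344.MO

open Finset Pool.Agent.W262.RK Pool.Agent.W307.RT Pool.Agent.TH344.DT Pool.Agent.TH344.JG

/-- the exponent of the logarithm for the `k`-th moment, if `2 ^ k ≥ 4 g` -/
noncomputable def gam (g k : ℕ) : ℝ := (g : ℝ) / 2 * ((2 : ℝ) ^ k - 1) * (1 - 4 * g / 2 ^ k)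

/-- MO-EXT: the largest unlinked set. -/
def S_EXTX : Prop := ∀ g k : ℕ, 1 ≤ g → 4 * g ≤ 2 ^ k → ∀ U : Finset (IV (PR (2 * g + 1)) k P0),
  (∀ i ∈ U, ∀ j ∈ U, LV adj i j = LV adj j i) →
    (U.card : ℝ) ≤ 2 ^ k * (Fintype.card (PR (2 * g + 1)) + gam g k)

/-- the main average with the exponent `|V| + γ` -/
def MAFX {V : Type} [Fintype V] [DecidableEq V] (ad : V → V → Bool) (k : ℕ) (γ : ℝ) : Prop :=
  ∃ z0 : ℕ, ∀ z, z0 ≤ z → ∃ C : ℝ, ∀ y, z < y →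
  ∑ s ∈ Tup V z y, NFV ad k s * ∏ j, gw 1 (Fintype.card V) (s j) ≤
    C * (Real.log y) ^ ((Fintype.card V : ℝ) + γ)

open Classical in
/-- MO-AVG: the moments over the box. -/
def S_AVGX : Prop := ∀ (n k : ℕ) (γ : ℝ), 0 ≤ γ → 3 ≤ n → Odd n → MAFX (adj (n := n)) k γ →
  ∃ (z : ℕ) (C : ℝ), 0 ≤ C ∧ ∀ X : ℕ, 1 ≤ X →
    ∑ a ∈ (BoxJ n X).filter (fun a => Function.Injective a ∧ (∏ p ∈ clJ z a, p) ^ 16 ≤ X),
      ((SelJ a).ncard : ℝ) ^ k ≤ C * ((X : ℝ) ^ n * (1 + Real.log X) ^ γ)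

end Pool.Agent.TH344.MO
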