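import Mathlib
import Pool.Agent.TH344.JG.Ext
import Pool.Agent.TH344.MO.Stm

/-! Project MO: the largest unlinked set, if `2 ^ k ≥ 4 g`. -/

set_option autoImplicit false

namespace Pool.Agent.TH344.MO

open Finset Matrix Pool.Agent.W262.RK Pool.Agent.W307.RT Pool.Agent.TH344.DT Pool.Agent.TH344.JG
open Pool.Agent.TH344.JG.Ext

namespace ExtX

/-- the heavy edges form a matching -/
lemma card_heavy {g k : ℕ} (w : PR (2 * g + 1) → ℕ)
    (h1 : ∀ c c', adj c c' = true → w c + w c' ≤ 2 * k) :
    (univ.filter (fun c : PR (2 * g + 1) => k < w c)).card ≤ g := by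
  have hcard : ∀ v : Fin (2 * g + 1),
      (univ.filter (fun c : PR (2 * g + 1) => inc v c ∧ k < w c)).card ≤ 1 := by
    intro v
    rw [Finset.card_le_one]
    intro c hc c' hc'
    rw [Finset.mem_filter] at hc hc'
    by_contra hne
    have := h1 c c' (adj_of_inc hc.2.1 hc'.2.1 hne)
    have h2 := hc.2.2
    have h3 := hc'.2.2
    omega
  have h2 : ∑ v : Fin (2 * g + 1),
      (univ.filter (fun c : PR (2 * g + 1) => inc v c ∧ k < w c)).card ≤ 2 * g + 1 := by
    refine (Finset.sum_le_sum (fun v _ => hcard v)).trans ?_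
    simp
  have h3 : ∑ v : Fin (2 * g + 1),
      (univ.filter (fun c : PR (2 * g + 1) => inc v c ∧ k < w c)).card =
      2 * (univ.filter (fun c : PR (2 * g + 1) => k < w c)).card := by
    have : ∀ v : Fin (2 * g + 1),
        (univ.filter (fun c : PR (2 * g + 1) => inc v c ∧ k < w c)).card =
        ∑ c ∈ univ.filter (fun c : PR (2 * g + 1) => k < w c), if inc v c then 1 else 0 := by
      intro v
      rw [Finset.card_filter, Finset.sum_filter]
      refine Finset.sum_congr rfl (fun c _ => ?_)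
      by_cases ha : inc v c <;> by_cases hb : k < w c <;> simp [ha, hb]
    rw [Finset.sum_congr rfl (fun v _ => this v), Finset.sum_comm]
    have h4 : ∀ c ∈ univ.filter (fun c : PR (2 * g + 1) => k < w c),
        (∑ v : Fin (2 * g + 1), if inc v c then 1 else 0) = 2 := by
      intro c _
      rw [← Finset.card_filter, card_inc]
    rw [Finset.sum_congr rfl h4, Finset.sum_const, smul_eq_mul, mul_comm]
  omega

/-- the combinatorial part -/
lemma main_combX (g k : ℕ) (hg1 : 1 ≤ g) (hg : 4 * g ≤ 2 ^ k) (w s : PR (2 * g + 1) → ℕ)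
    (h1 : ∀ c c', adj c c' = true → w c + w c' ≤ 2 * k)
    (h2 : ∀ c, s c ≤ 2 ^ w c) (h3 : ∀ c, 2 * s c ≤ 2 ^ w c + 2 ^ k) (h4 : ∀ c, w c ≤ 2 * k) :
    ((∑ c, s c : ℕ) : ℝ) ≤ 2 ^ k * (Fintype.card (PR (2 * g + 1)) + gam g k) := by
  obtain ⟨v0, hv0⟩ := exists_free w h1
  have hk0 : (0 : ℝ) < 2 ^ k := by positivity
  have hgr : 4 * (g : ℝ) ≤ 2 ^ k := by exact_mod_cast hg
  have hg1r : (1 : ℝ) ≤ g := by exact_mod_cast hg1
  obtain ⟨ψ, hψ⟩ : ∃ ψ : ℝ, ψ = ((2 : ℝ) ^ k - 1) * (1 - 4 * g / 2 ^ k) / 2 := ⟨_, rfl⟩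
  have hψ0 : 0 ≤ ψ := by
    rw [hψ]
    have e1 : 4 * (g : ℝ) / 2 ^ k ≤ 1 := by
      rw [div_le_one hk0]; exact hgr
    have e2 : 0 ≤ ((2 : ℝ) ^ k - 1) * (1 - 4 * g / 2 ^ k) :=
      mul_nonneg (by linarith) (by linarith)
    linarith
  have ht0 : tt w k v0 = 0 := tt_zero w hv0
  -- the defect of an edge
  have key : ∀ c : PR (2 * g + 1), (tt w k c.1.1 + tt w k c.1.2) / 2 - (2 * g + 1) * tau w k c +
      (if inc v0 c then (tt w k c.1.1 + tt w k c.1.2) / 2 else 0) ≤ 1 - (s c : ℝ) / 2 ^ k +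
        (if k < w c then ψ else 0) := by
    intro c
    by_cases hc : k < w c
    · -- heavy edges
      have hi1 : inc c.1.1 c := Or.inl rfl
      have hi2 : inc c.1.2 c := Or.inr rfl
      have hn : ¬ inc v0 c := fun h => absurd (hv0 c h) (not_le.2 hc)
      rw [tt_eq w h1 hi1 hc, tt_eq w h1 hi2 hc, if_neg hn, tau, if_pos hc, if_pos hc]
      obtain ⟨j, hj⟩ := Nat.exists_eq_add_of_lt hc
      have hw : (2 : ℝ) ^ (w c) = 2 ^ k * 2 ^ (j + 1) := by
        rw [hj, ← pow_add]; congr 1
      have hjk : (2 : ℝ) ^ (j + 1) ≤ 2 ^ k := by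
        apply pow_le_pow_right₀ (by norm_num)
        have := h4 c
        omega
      have h5 : 2 * (s c : ℝ) ≤ 2 ^ w c + 2 ^ k := by exact_mod_cast h3 c
      rw [hw] at h5 ⊢
      have hj1 : (1 : ℝ) ≤ 2 ^ (j + 1) := one_le_pow₀ (by norm_num)
      set a : ℝ := 2 ^ (j + 1) with ha
      have ha0 : 0 < a := by positivity
      have h6 : (2 : ℝ) ^ k / (2 ^ k * a) = 1 / a := by field_simp
      rw [h6]
      have h7 : (s c : ℝ) / 2 ^ k ≤ (a + 1) / 2 := by
        rw [div_le_iff₀ hk0]
        nlinarith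
      have h8 : (a - 1) / 2 ≤ 2 * g * (1 - 1 / a) + ψ := by
        have h9 : 2 * g * (1 - 1 / a) + ψ - (a - 1) / 2 =
            (2 ^ k - a) * (a * 2 ^ k - 4 * g) / (2 * a * 2 ^ k) := by
          rw [hψ]
          field_simp
          ring
        have h10 : 0 ≤ (2 ^ k - a) * (a * 2 ^ k - 4 * g) / (2 * a * 2 ^ k) := by
          apply div_nonneg _ (by positivity)
          apply mul_nonneg (by linarith)
          nlinarith
        linarith
      linarith
    · -- the other edges
      have hc' : w c ≤ k := not_lt.1 hc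
      have hD : ∀ v, inc v c → tt w k v ≤ 1 - (s c : ℝ) / 2 ^ k := by
        intro v hv
        by_cases hcov : ∃ c', inc v c' ∧ k < w c'
        · obtain ⟨c', hi, hw'⟩ := hcov
          rw [tt_eq w h1 hi hw', tau, if_pos hw']
          have hne : c ≠ c' := by rintro rfl; exact hc hw'
          have h5 := h1 c c' (adj_of_inc hv hi hne)
          have h6 : (s c : ℝ) ≤ 2 ^ w c := by exact_mod_cast h2 c
          have h7 : (2 : ℝ) ^ (w c) * 2 ^ (w c') ≤ 2 ^ k * 2 ^ k := by
            rw [← pow_add, ← pow_add]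
            exact pow_le_pow_right₀ (by norm_num) (by omega)
          have h8 : (s c : ℝ) / 2 ^ k ≤ 2 ^ k / 2 ^ w c' := by
            rw [div_le_div_iff₀ hk0 (by positivity)]
            exact (mul_le_mul_of_nonneg_right h6 (by positivity)).trans h7
          linarith
        · push Not at hcov
          rw [tt_zero w hcov]
          have h6 : (s c : ℝ) ≤ 2 ^ k := by
            have h7 : s c ≤ 2 ^ k := (h2 c).trans (Nat.pow_le_pow_right (by norm_num) hc')
            exact_mod_cast h7
          have h8 : (s c : ℝ) / 2 ^ k ≤ 1 := by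
            rw [div_le_one hk0]; exact h6
          linarith
      have hi1 : inc c.1.1 c := Or.inl rfl
      have hi2 : inc c.1.2 c := Or.inr rfl
      have hd1 := hD _ hi1
      have hd2 := hD _ hi2
      rw [tau_zero w hc', mul_zero, sub_zero, if_neg hc, add_zero]
      split_ifs with h0
      · rcases h0 with h0 | h0
        · rw [h0, ht0]; rw [h0, ht0] at hd1; linarith
        · rw [h0, ht0]; rw [h0, ht0] at hd2; linarith
      · linarith
  have hsum := Finset.sum_le_sum (fun c (_ : c ∈ (univ : Finset (PR (2 * g + 1)))) => key c)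
  rw [Finset.sum_add_distrib, Finset.sum_sub_distrib, Finset.sum_add_distrib, Finset.sum_sub_distrib,
    ← Finset.sum_div,
    sum_edges (tt w k), ← Finset.mul_sum, ← Finset.sum_div, ← Finset.sum_filter,
    sum_inc v0 (fun a b => (tt w k a + tt w k b) / 2) (fun a b => by rw [add_comm])] at hsum
  have hS : ∑ u ∈ univ.filter (fun u : Fin (2 * g + 1) => u ≠ v0), (tt w k u + tt w k v0) / 2 =
      (∑ v, tt w k v) / 2 := by
    rw [ht0, Finset.sum_div]
    rw [Finset.sum_filter]
    refine Finset.sum_congr rfl (fun u _ => ?_)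
    split_ifs with h
    · simp
    · push Not at h
      rw [h, ht0]; simp
  rw [hS] at hsum
  have hT := sum_tt (k := k) w
  rw [hT] at hsum
  have hH : ∑ c : PR (2 * g + 1), (if k < w c then ψ else 0) ≤ g * ψ := by
    rw [← Finset.sum_filter, Finset.sum_const, nsmul_eq_mul]
    exact mul_le_mul_of_nonneg_right (by exact_mod_cast card_heavy w h1) hψ0
  simp only [Finset.sum_const, Finset.card_univ, nsmul_eq_mul, mul_one] at hsum
  push_cast at hsum
  have hgam : gam g k = g * ψ := by
    unfold gam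
    rw [hψ]
    ring
  have h5 : (∑ c, (s c : ℝ)) / 2 ^ k ≤ Fintype.card (PR (2 * g + 1)) + gam g k := by
    rw [hgam]
    nlinarith
  rw [div_le_iff₀ hk0] at h5
  push_cast
  linarith

end ExtX

open ExtX in
/-- MO-EXT: the largest unlinked set -/
theorem extx : S_EXTX := by
  intro g k hg1 hg U hU
  classical
  let S : PR (2 * g + 1) → Finset (E k) := fun c =>
    (U.filter (fun i => i.1.1 = c)).image (fun i => (ph i.1.2.1, ph i.1.2.2))
  have hcard : ∀ c, (S c).card = (U.filter (fun i => i.1.1 = c)).card := by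
    intro c
    refine Finset.card_image_of_injOn ?_
    intro i hi j hj hij
    have hi' : i.1.1 = c := (Finset.mem_filter.1 (Finset.mem_coe.1 hi)).2
    have hj' : j.1.1 = c := (Finset.mem_filter.1 (Finset.mem_coe.1 hj)).2
    have h1 := ph_inj (congrArg Prod.fst hij)
    have h2 := ph_inj (congrArg Prod.snd hij)
    exact Subtype.ext (Prod.ext (hi'.trans hj'.symm) (Prod.ext h1 h2))
  have hU' : U.card = ∑ c, (S c).card := by
    rw [Finset.sum_congr rfl (fun c _ => hcard c)]
    exact Finset.card_eq_sum_card_fiberwise (fun _ _ => Finset.mem_coe.2 (Finset.mem_univ _))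
  rw [hU']
  refine main_combX g k hg1 hg (fun c => Module.finrank (ZMod 2)
    (Submodule.span (ZMod 2) (S c : Set (E k)))) (fun c => (S c).card) ?_ ?_ ?_ ?_
  · intro c c' had
    refine finrank_span (S c) (S c') ?_
    intro u hu v hv
    obtain ⟨i, hi, rfl⟩ := Finset.mem_image.1 hu
    obtain ⟨j, hj, rfl⟩ := Finset.mem_image.1 hv
    obtain ⟨hi1, hi2⟩ := Finset.mem_filter.1 hi
    obtain ⟨hj1, hj2⟩ := Finset.mem_filter.1 hj
    have hadj : adj c' c = true := by
      simp only [adj, Bool.and_eq_true, decide_eq_true_eq] at had ⊢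
      refine ⟨had.1.symm, ?_⟩
      rcases had.2 with h | h | h | h
      · exact Or.inl h.symm
      · exact Or.inr (Or.inr (Or.inl h.symm))
      · exact Or.inr (Or.inl h.symm)
      · exact Or.inr (Or.inr (Or.inr h.symm))
    have h := hU i hi1 j hj1
    simp only [LV, hi2, hj2, had, hadj, Bool.true_and, dtp_eq] at h
    have h' := dec_eq _ _ h
    show ph i.1.2.1 ⬝ᵥ ph j.1.2.2 + ph j.1.2.1 ⬝ᵥ ph i.1.2.2 = 0
    rw [h', add_self_zero]
  all_goals
    have hz : ∀ c, ∀ u ∈ S c, qf u = 0 := by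
      intro c u hu
      obtain ⟨i, hi, rfl⟩ := Finset.mem_image.1 hu
      have h := i.2
      simp only [P0, dtp_eq, Bool.not_eq_true', decide_eq_false_iff_not] at h
      show ph i.1.2.1 ⬝ᵥ ph i.1.2.2 = 0
      by_contra hne
      exact h ((ne_zero_iff _).1 hne)
  · intro c
    exact (card_zeros _ (S c) (fun u hu => Submodule.subset_span hu) (hz c)).1
  · intro c
    exact (card_zeros _ (S c) (fun u hu => Submodule.subset_span hu) (hz c)).2
  · intro c
    rw [← finrank_E k]
    exact Submodule.finrank_le _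

end Pool.Agent.TH344.MO
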