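import Mathlib
import Pool.Agent.TH344.JG.Exc
import Pool.Agent.TH344.JG.Exp
import Pool.Agent.TH344.MO.Ext

/-! Project MO: the main average for `2 ^ k ≥ 4 g`, and the moments over the box. -/

set_option autoImplicit false

namespace Pool.Agent.TH344.MO

open Finset Pool.Agent.W262.RK Pool.Agent.W307.RT Pool.Agent.TH344.DT Pool.Agent.TH344.JG

lemma gam_nonneg {g k : ℕ} (hkg : 4 * g ≤ 2 ^ k) : 0 ≤ gam g k := by
  have hgr : 4 * (g : ℝ) ≤ 2 ^ k := by exact_mod_cast hkg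
  have hk0 : (0 : ℝ) < 2 ^ k := by positivity
  have e1 : 4 * (g : ℝ) / 2 ^ k ≤ 1 := by
    rw [div_le_one hk0]; exact hgr
  have e2 : (1 : ℝ) ≤ 2 ^ k := one_le_pow₀ (by norm_num)
  unfold gam
  apply mul_nonneg (mul_nonneg (by positivity) (by linarith)) (by linarith)

/-- the main average without weight, for large `k` -/
theorem maf_large (hE : S_EXPV) (hX : S_EXTX) {g k : ℕ} (hg : 1 ≤ g) (hk : 1 ≤ k)
    (hkg : 4 * g ≤ 2 ^ k) : MAFX (adj (n := 2 * g + 1)) k (gam g k) := by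
  obtain ⟨z0, hz0⟩ := at_thm (IV (PR (2 * g + 1)) k P0) (fun _ => 1 / 2 ^ k) (LV adj)
    (fun _ => 1) (Fintype.card (PR (2 * g + 1)))
    (((Fintype.card (PR (2 * g + 1)) : ℕ) : ℝ) + gam g k)
    (fun _ => ⟨by positivity, by
      have h2 : (2 : ℝ) ^ 1 ≤ 2 ^ k := pow_le_pow_right₀ (by norm_num) hk
      rw [pow_one] at h2
      exact one_div_le_one_div_of_le (by norm_num) h2⟩)
    (LV_self adj_self) (fun _ => one_ne_zero) (fun U hU => by
      rw [sum_const, nsmul_eq_mul]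
      have h3 := hX g k hg hkg U hU
      rw [mul_one_div, div_le_iff₀ (by positivity)]
      linarith)
  refine ⟨max z0 2, fun z hz => ?_⟩
  obtain ⟨C, hC⟩ := hz0 z (le_trans (le_max_left _ _) hz)
  refine ⟨C, fun y hy => ?_⟩
  have hz2 : 2 ≤ z := le_trans (le_max_right _ _) hz
  have h1 := hE (PR (2 * g + 1)) adj adj_self adj_comm k (Fintype.card (PR (2 * g + 1))) z y hz2
    (fun _ => 1)
  simp only [mul_one] at h1 ⊢
  rw [h1]
  exact (le_trans (le_abs_self _) (hC y hy))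

open scoped Classical in
/-- the moments over all the points of the box, for large `k` -/
theorem momx_of (hE : S_EXPV) (hX : S_EXTX) (hA : S_AVGX) (hC : S_CRU) {g k : ℕ} (hg : 1 ≤ g)
    (hkg : 4 * g ≤ 2 ^ k) : ∃ C : ℝ, 0 ≤ C ∧ ∀ X : ℕ, 1 ≤ X →
    ∑ a ∈ (BoxJ (2 * g + 1) X).filter (fun a => Function.Injective a),
      ((SelJ a).ncard : ℝ) ^ k ≤ C * ((X : ℝ) ^ (2 * g + 1) * (1 + Real.log X) ^ gam g k) := by
  have hk : 1 ≤ k := by
    rcases Nat.eq_zero_or_pos k with rfl | h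
    · rw [pow_zero] at hkg
      omega
    · exact h
  obtain ⟨z, C, hC0, hC1⟩ := hA (2 * g + 1) k (gam g k) (gam_nonneg hkg) (by omega) ⟨g, rfl⟩
    (maf_large hE hX hg hk hkg)
  obtain ⟨C2, hC20, hC2⟩ := hC (2 * g + 1) k z (by omega) ⟨g, rfl⟩
  refine ⟨C + C2, by positivity, fun X hX => ?_⟩
  have h1 := hC1 X hX
  have h2 := hC2 X hX
  have h3 : (1 : ℝ) ≤ (1 + Real.log X) ^ gam g k := by
    apply Real.one_le_rpow _ (gam_nonneg hkg)
    have : 0 ≤ Real.log X := Real.log_nonneg (by exact_mod_cast hX)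
    linarith
  rw [← sum_filter_add_sum_filter_not _ (fun a => (∏ p ∈ clJ z a, p) ^ 16 ≤ X), filter_filter,
    filter_filter, add_mul]
  refine add_le_add h1 (h2.trans ?_)
  apply mul_le_mul_of_nonneg_left _ hC20
  exact le_mul_of_one_le_right (by positivity) h3

end Pool.Agent.TH344.MO
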