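import Mathlib
import Pool.Agent.TH344.JG.Main
import Pool.Agent.TH344.JG.MW
import Pool.Agent.TH344.JT.Main
import Pool.Agent.TH344.MO.Maf
import Pool.Agent.TH344.MO.Avg

/-! Project MO: the exact order of the moments over all the points of the box. -/

set_option autoImplicit false

namespace Pool.Agent.TH344.MO

open Finset Pool.Agent.TH344.JG

open scoped Classical in
/-- the moments over all the points of the box, for large `k` -/
theorem momx {g k : ℕ} (hg : 1 ≤ g) (hkg : 4 * g ≤ 2 ^ k) : ∃ C : ℝ, 0 ≤ C ∧ ∀ X : ℕ, 1 ≤ X →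
    ∑ a ∈ (BoxJ (2 * g + 1) X).filter (fun a => Function.Injective a),
      ((SelJ a).ncard : ℝ) ^ k ≤ C * ((X : ℝ) ^ (2 * g + 1) * (1 + Real.log X) ^ gam g k) :=
  momx_of expv extx (avgx_of selj (cntj_of line) subv) (cru_of selj) hg hkg

lemma one_le_sel {n : ℕ} (ho : Odd n) {a : Fin n → ℤ} (ha : Function.Injective a) :
    1 ≤ (SelJ a).ncard := by
  rw [Nat.one_le_iff_ne_zero, Ne, Set.ncard_eq_zero (seljf ho ha), ← Ne, ← Set.nonempty_iff_ne_empty]
  exact ⟨fun _ => 1, fun _ => squarefree_one, LocJ_one ℝ a, fun p _ => LocJ_one ℚ_[p] a⟩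

open scoped Classical in
/-- the moments are bounded below -/
theorem low1 {g k : ℕ} (hg : 1 ≤ g) : ∃ N0 : ℕ, ∀ X : ℕ, N0 ≤ X →
    (1 / 2 : ℝ) * (2 * (X : ℝ) + 1) ^ (2 * g + 1) ≤
      ∑ a ∈ (BoxJ (2 * g + 1) X).filter (fun a => Function.Injective a),
        ((SelJ a).ncard : ℝ) ^ k := by
  obtain ⟨Z, hZ1, hZ2, -⟩ := excj (n := 2 * g + 1) (by omega) ⟨g, rfl⟩
  obtain ⟨H0, hH0⟩ := hZ2 (1 / 2) (by norm_num)
  refine ⟨H0, fun X hX => ?_⟩
  have h1 := hH0 X hX
  have h2 := card_filter_add_card_filter_not (s := BoxJ (2 * g + 1) X) (fun a => a ∈ Z)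
  have h3 : ((BoxJ (2 * g + 1) X).card : ℝ) = (2 * (X : ℝ) + 1) ^ (2 * g + 1) := by
    rw [card_BoxJ]
    push_cast
    rfl
  have h4 : (((BoxJ (2 * g + 1) X).filter (fun a => a ∈ Z)).card : ℝ) +
      (((BoxJ (2 * g + 1) X).filter (fun a => ¬ a ∈ Z)).card : ℝ) =
      ((BoxJ (2 * g + 1) X).card : ℝ) := by
    exact_mod_cast h2
  calc (1 / 2 : ℝ) * (2 * (X : ℝ) + 1) ^ (2 * g + 1)
      ≤ (((BoxJ (2 * g + 1) X).filter (fun a => ¬ a ∈ Z)).card : ℝ) := by
        rw [← h3]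
        linarith
    _ ≤ (((BoxJ (2 * g + 1) X).filter (fun a => Function.Injective a)).card : ℝ) := by
        refine Nat.cast_le.2 (card_le_card fun a ha => ?_)
        rw [mem_filter] at ha ⊢
        refine ⟨ha.1, ?_⟩
        by_contra hcon
        exact ha.2 (hZ1 a hcon)
    _ = ∑ a ∈ (BoxJ (2 * g + 1) X).filter (fun a => Function.Injective a), (1 : ℝ) := by
        rw [sum_const, nsmul_eq_mul, mul_one]
    _ ≤ _ := by
        refine sum_le_sum fun a ha => ?_
        exact one_le_pow₀ (by exact_mod_cast one_le_sel ⟨g, rfl⟩ (mem_filter.1 ha).2)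

lemma gam_eq (g k : ℕ) : (g : ℝ) / 2 * ((2 : ℝ) ^ (k : ℝ) - 1) * (1 - 4 * g / (2 : ℝ) ^ (k : ℝ)) =
    gam g k := by
  unfold gam
  rw [Real.rpow_natCast]

open scoped Classical in
/-- the exact order of the moments -/
theorem order {g : ℕ} (k : ℕ) (hg : 1 ≤ g) : ∃ (c C : ℝ) (N0 : ℕ), 0 < c ∧ ∀ X : ℕ, N0 ≤ X →
    c * ((2 * (X : ℝ) + 1) ^ (2 * g + 1) * (Real.log X) ^ max 0 (gam g k)) ≤
      ∑ a ∈ (BoxJ (2 * g + 1) X).filter (fun a => Function.Injective a),
        ((SelJ a).ncard : ℝ) ^ k ∧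
    ∑ a ∈ (BoxJ (2 * g + 1) X).filter (fun a => Function.Injective a),
        ((SelJ a).ncard : ℝ) ^ k ≤
      C * ((2 * (X : ℝ) + 1) ^ (2 * g + 1) * (Real.log X) ^ max 0 (gam g k)) := by
  have hXX : ∀ X : ℕ, (X : ℝ) ^ (2 * g + 1) ≤ (2 * (X : ℝ) + 1) ^ (2 * g + 1) := fun X => by
    apply pow_le_pow_left₀ (Nat.cast_nonneg _)
    have : (0 : ℝ) ≤ X := Nat.cast_nonneg _
    linarith
  rcases Nat.lt_or_ge (4 * g) (2 ^ k) with h | h
  · -- large `k`
    have hκ : 4 * (g : ℝ) < (2 : ℝ) ^ (k : ℝ) := by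
      rw [Real.rpow_natCast]
      exact_mod_cast h
    obtain ⟨c, X0, hc, hX0⟩ := Pool.Agent.TH344.JT.thr g k hg hκ
    obtain ⟨C, hC0, hC⟩ := momx hg h.le
    have hγ := gam_nonneg h.le
    refine ⟨c / 3 ^ (2 * g + 1), C * 2 ^ gam g k, X0 + 3, by positivity, fun X hX => ⟨?_, ?_⟩⟩
    · have h1 := hX0 X (by omega)
      rw [gam_eq] at h1
      simp only [Real.rpow_natCast] at h1
      rw [max_eq_right hγ]
      refine le_trans ?_ h1
      have hN1 : (1 : ℝ) ≤ X := by exact_mod_cast (by omega : 1 ≤ X)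
      have hl : 0 ≤ Real.log X := Real.log_natCast_nonneg X
      have h2 : (2 * (X : ℝ) + 1) ^ (2 * g + 1) ≤ 3 ^ (2 * g + 1) * (X : ℝ) ^ (2 * g + 1) := by
        rw [← mul_pow]
        exact pow_le_pow_left₀ (by positivity) (by linarith) _
      calc c / 3 ^ (2 * g + 1) * ((2 * (X : ℝ) + 1) ^ (2 * g + 1) * (Real.log X) ^ gam g k)
          ≤ c / 3 ^ (2 * g + 1) * ((3 ^ (2 * g + 1) * (X : ℝ) ^ (2 * g + 1)) *
              (Real.log X) ^ gam g k) := by
            apply mul_le_mul_of_nonneg_left _ (by positivity)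
            exact mul_le_mul_of_nonneg_right h2 (Real.rpow_nonneg hl _)
        _ = c * ((X : ℝ) ^ (2 * g + 1) * (Real.log X) ^ gam g k) := by
            field_simp
    · refine (hC X (by omega)).trans ?_
      rw [max_eq_right hγ]
      have hX3 : (3 : ℝ) ≤ X := by exact_mod_cast (by omega : 3 ≤ X)
      have hl : 1 ≤ Real.log X := by
        rw [Real.le_log_iff_exp_le (by linarith)]
        exact Real.exp_one_lt_three.le.trans hX3
      have h2 : (1 + Real.log X) ^ gam g k ≤ 2 ^ gam g k * (Real.log X) ^ gam g k := by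
        rw [← Real.mul_rpow (by norm_num) (by linarith)]
        exact Real.rpow_le_rpow (by linarith) (by linarith) hγ
      calc C * ((X : ℝ) ^ (2 * g + 1) * (1 + Real.log X) ^ gam g k)
          ≤ C * ((2 * (X : ℝ) + 1) ^ (2 * g + 1) * (2 ^ gam g k * (Real.log X) ^ gam g k)) := by
            apply mul_le_mul_of_nonneg_left _ hC0
            exact mul_le_mul (hXX X) h2 (Real.rpow_nonneg (by linarith) _) (by positivity)
        _ = _ := by ring
  · -- small `k`
    obtain ⟨C, hC0, hC⟩ := momj hg h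
    obtain ⟨N0, hN0⟩ := low1 (g := g) (k := k) hg
    have hγ : gam g k ≤ 0 := by
      have hgr : (2 : ℝ) ^ k ≤ 4 * (g : ℝ) := by exact_mod_cast h
      have hk0 : (0 : ℝ) < 2 ^ k := by positivity
      have e1 : 1 ≤ 4 * (g : ℝ) / 2 ^ k := by
        rw [le_div_iff₀ hk0]; linarith
      have e2 : (1 : ℝ) ≤ 2 ^ k := one_le_pow₀ (by norm_num)
      unfold gam
      exact mul_nonpos_of_nonneg_of_nonpos (mul_nonneg (by positivity) (by linarith))
        (by linarith)
    refine ⟨1 / 2, C, N0 + 1, by norm_num, fun X hX => ⟨?_, ?_⟩⟩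
    · rw [max_eq_left hγ, Real.rpow_zero, mul_one]
      exact hN0 X (by omega)
    · rw [max_eq_left hγ, Real.rpow_zero, mul_one]
      exact (hC X (by omega)).trans (mul_le_mul_of_nonneg_left (hXX X) hC0)

end Pool.Agent.TH344.MO
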