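import Mathlib
import Pool.Agent.TH344.MO.Main
import Pool.Agent.TH344.MT.Main

/-! Project MO: the exact order of the moments for the elliptic curves with full rational 2-torsion,
ordered by height. -/

set_option autoImplicit false

namespace Pool.Agent.TH344.MO

open Finset Pool.Agent.W307.RT Pool.Agent.W307.SE Pool.Agent.TH344.JG

open scoped Classical in
theorem mom3 {k : ℕ} (hk : 4 ≤ 2 ^ k) : ∃ C : ℝ, 0 ≤ C ∧ ∀ X : ℕ, 1 ≤ X →
    ∑ a ∈ (BoxJ 3 X).filter (fun a => Function.Injective a),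
      ((SelJ a).ncard : ℝ) ^ k ≤ C * ((X : ℝ) ^ 3 * (1 + Real.log X) ^ gam 1 k) :=
  momx (g := 1) le_rfl hk

namespace Hgt

lemma coef {A B : ℤ} {e : Fin 3 → ℤ}
    (he : ∀ x : ℤ, x ^ 3 + A * x + B = (x - e 0) * (x - e 1) * (x - e 2)) :
    e 0 + e 1 + e 2 = 0 ∧ A = e 0 * e 1 + e 0 * e 2 + e 1 * e 2 ∧ B = -(e 0 * e 1 * e 2) := by
  have h0 := he 0
  have h1 := he 1
  have h2 := he (-1)
  refine ⟨by linarith, ?_, by linarith⟩
  have h3 : e 0 + e 1 + e 2 = 0 := by linarith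
  linarith

lemma loc_of {K : Type} [Field K] {A B : ℤ} {e : Fin 3 → ℤ} (t : ℤ)
    (he : ∀ x : ℤ, x ^ 3 + A * x + B = (x - e 0) * (x - e 1) * (x - e 2)) {d : ℤ → ℤ}
    (h : LocR K A B d) : LocJ K (fun i => e i + t) (fun i => d (e i)) := by
  obtain ⟨x, y, hy, h1, h2⟩ := h
  obtain ⟨c1, c2, c3⟩ := coef he
  have hK : ∀ z : K, z ^ 3 + A * z + B = (z - e 0) * (z - e 1) * (z - e 2) := by
    intro z
    have e1 : ((e 0 : ℤ) : K) + e 1 + e 2 = 0 := by exact_mod_cast congrArg (Int.cast (R := K)) c1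
    have e2 : ((A : ℤ) : K) = e 0 * e 1 + e 0 * e 2 + e 1 * e 2 := by
      rw [c2]
      push_cast
      ring
    have e3 : ((B : ℤ) : K) = -(e 0 * e 1 * e 2) := by
      rw [c3]
      push_cast
      ring
    rw [e2, e3]
    linear_combination z ^ 2 * e1
  have hy2 : y ^ 2 = (x - e 0) * (x - e 1) * (x - e 2) := by rw [h1, hK]
  have hne : ∀ i : Fin 3, x - ((e i : ℤ) : K) ≠ 0 := by
    intro i h0
    have h3 : (x - ((e 0 : ℤ) : K)) * (x - e 1) * (x - e 2) = 0 := by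
      fin_cases i
      · have h4 : x - ((e 0 : ℤ) : K) = 0 := h0
        rw [h4]; ring
      · have h4 : x - ((e 1 : ℤ) : K) = 0 := h0
        rw [h4]; ring
      · have h4 : x - ((e 2 : ℤ) : K) = 0 := h0
        rw [h4]; ring
    rw [h3] at hy2
    exact hy (pow_eq_zero_iff (two_ne_zero) |>.1 hy2)
  refine ⟨Polynomial.X - Polynomial.C (x + t), Polynomial.C y, Polynomial.monic_X_sub_C _, ?_,
    fun i => ⟨?_, ?_⟩⟩
  · rw [Polynomial.dvd_iff_isRoot, Polynomial.IsRoot, Polynomial.eval_sub, Polynomial.eval_prod,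
      Polynomial.eval_pow, Polynomial.eval_C, Fin.prod_univ_three]
    simp only [Polynomial.eval_sub, Polynomial.eval_X, Polynomial.eval_C]
    rw [hy2]
    push_cast
    ring
  · simp only [Polynomial.eval_sub, Polynomial.eval_X, Polynomial.eval_C]
    push_cast
    intro h3
    apply hne i
    linear_combination -h3
  · rw [Polynomial.natDegree_X_sub_C]
    simp only [Polynomial.eval_sub, Polynomial.eval_X, Polynomial.eval_C]
    have h3 := h2 (e i) (by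
      rw [he]
      fin_cases i
      · show (e 0 - e 0) * (e 0 - e 1) * (e 0 - e 2) = 0
        ring
      · show (e 1 - e 0) * (e 1 - e 1) * (e 1 - e 2) = 0
        ring
      · show (e 2 - e 0) * (e 2 - e 1) * (e 2 - e 2) = 0
        ring)
    have h4 : (-1 : K) ^ 1 * (((e i + t : ℤ) : K) - (x + t)) * ((d (e i) : ℤ) : K) =
        (x - e i) * ((d (e i) : ℤ) : K) := by
      push_cast
      ring
    rw [h4]
    exact h3

lemma sel_le {A B : ℤ} {e : Fin 3 → ℤ} (t : ℤ) (hinj : Function.Injective e)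
    (he : ∀ x : ℤ, x ^ 3 + A * x + B = (x - e 0) * (x - e 1) * (x - e 2)) :
    (SelR A B).ncard ≤ (SelJ (fun i => e i + t)).ncard := by
  have hinj' : Function.Injective (fun i => e i + t) := fun i j h => hinj (by
    have : e i + t = e j + t := h
    linarith)
  refine Set.ncard_le_ncard_of_injOn (fun d i => d (e i)) ?_ ?_ (seljf (by decide) hinj')
  · intro d hd
    exact ⟨fun i => hd.1 (e i), loc_of t he hd.2.2.1, fun p _ => loc_of t he (hd.2.2.2 p)⟩
  · intro d hd d' hd' h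
    funext x
    by_cases hx : x ^ 3 + A * x + B = 0
    · have h1 := hx
      rw [he] at h1
      have h2 : ∀ i, x - e i = 0 → d x = d' x := by
        intro i hi
        have h3 : x = e i := by linarith
        rw [h3]
        exact congrFun h i
      rcases mul_eq_zero.1 h1 with h3 | h3
      · rcases mul_eq_zero.1 h3 with h4 | h4
        · exact h2 0 h4
        · exact h2 1 h4
      · exact h2 2 h3
    · rw [hd.2.1 x hx, hd'.2.1 x hx]

lemma roots {H T : ℕ} (hT : H ≤ T ^ 6) : ∀ c ∈ Cv 2 H, ∃ e : Fin 3 → ℤ,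
    (∀ x : ℤ, x ^ 3 + c.1 * x + c.2 = (x - e 0) * (x - e 1) * (x - e 2)) ∧
    Function.Injective e ∧ ∀ i, |e i| ≤ 2 * T := by
  classical
  obtain ⟨F, -, hF⟩ := Pool.Agent.W513.FK.parf
  intro c hc
  unfold Cv at hc
  rw [mem_filter] at hc
  obtain ⟨-, h1, h2, h3, -, h5⟩ := hc
  obtain ⟨f1, -, f3, f4, f5, e1, e2, e3, he, f6, f7⟩ := hF c h1 h5
  have hTI : (H : ℤ) ≤ (T : ℤ) ^ 6 := by exact_mod_cast hT
  have hT0 : (0 : ℤ) ≤ T := by positivity
  have hA : |c.1| ≤ (T : ℤ) ^ 2 := by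
    by_contra hcon
    push Not at hcon
    have h6 : ((T : ℤ) ^ 2) ^ 3 < |c.1| ^ 3 := pow_lt_pow_left₀ hcon (by positivity) (by norm_num)
    nlinarith [abs_nonneg c.1]
  have hB : |c.2| ≤ (T : ℤ) ^ 3 := by
    by_contra hcon
    push Not at hcon
    have h6 : ((T : ℤ) ^ 3) ^ 2 < |c.2| ^ 2 := pow_lt_pow_left₀ hcon (by positivity) (by norm_num)
    rw [sq_abs] at h6
    nlinarith
  have hroot : ∀ e : ℤ, e ^ 3 + c.1 * e + c.2 = 0 → |e| ≤ 2 * T := by
    intro e h0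
    by_contra hcon
    push Not at hcon
    have h7 : |e| ^ 3 ≤ |c.1| * |e| + |c.2| := by
      rw [← abs_pow, ← abs_mul]
      have : e ^ 3 = -(c.1 * e + c.2) := by linarith
      rw [this, abs_neg]
      exact abs_add_le _ _
    have h8 : |c.1| * |e| ≤ (T : ℤ) ^ 2 * |e| := mul_le_mul_of_nonneg_right hA (abs_nonneg _)
    have h9 : |e| ^ 3 ≤ (T : ℤ) ^ 2 * |e| + (T : ℤ) ^ 3 := by linarith
    set E := |e| with hE
    have hE0 : 0 < E := by linarith
    have h10 : 4 * (T : ℤ) ^ 2 ≤ E ^ 2 := by nlinarith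
    have h11 : 4 * (T : ℤ) ^ 2 * E ≤ E ^ 3 := by
      calc 4 * (T : ℤ) ^ 2 * E ≤ E ^ 2 * E := mul_le_mul_of_nonneg_right h10 hE0.le
        _ = E ^ 3 := by ring
    have h12 : 8 * (T : ℤ) ^ 3 ≤ 4 * (T : ℤ) ^ 2 * E := by
      have : 8 * (T : ℤ) ^ 3 = 4 * (T : ℤ) ^ 2 * (2 * T) := by ring
      rw [this]
      exact mul_le_mul_of_nonneg_left hcon.le (by positivity)
    have h13 : 0 < E ^ 3 := by positivity
    nlinarith
  have hF1 : (((F c).1 : ℕ) : ℤ) ≠ 0 := by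
    exact_mod_cast (by omega : (F c).1 ≠ 0)
  have g1 : e2 ≠ e1 := by
    intro h
    have : ((F c).1 : ℤ) * (F c).2.1 = 0 := by rw [← f6, h, sub_self]
    rcases mul_eq_zero.1 this with h' | h'
    · exact hF1 h'
    · exact f3 h'
  have g2 : e3 ≠ e1 := by
    intro h
    have : ((F c).1 : ℤ) * (F c).2.2 = 0 := by rw [← f7, h, sub_self]
    rcases mul_eq_zero.1 this with h' | h'
    · exact hF1 h'
    · exact f4 h'
  have g3 : e2 ≠ e3 := by
    intro h
    have h8 : ((F c).1 : ℤ) * (F c).2.1 = ((F c).1 : ℤ) * (F c).2.2 := by rw [← f6, ← f7, h]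
    exact f5 (mul_left_cancel₀ hF1 h8)
  refine ⟨![e1, e2, e3], fun x => ?_, ?_, ?_⟩
  · rw [he]
    simp
  · intro i j hij
    fin_cases i <;> fin_cases j <;> simp at hij ⊢
    · exact g1 hij.symm
    · exact g2 hij.symm
    · exact g1 hij
    · exact g3 hij
    · exact g2 hij
    · exact g3 hij.symm
  · intro i
    apply hroot
    rw [he]
    fin_cases i
    · show (e1 - e1) * (e1 - e2) * (e1 - e3) = 0
      ring
    · show (e2 - e1) * (e2 - e2) * (e2 - e3) = 0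
      ring
    · show (e3 - e1) * (e3 - e2) * (e3 - e3) = 0
      ring

end Hgt

open Hgt

/-- the sum over the curves of height at most `T ^ 6` -/
theorem sum_le {k : ℕ} (hk : 4 ≤ 2 ^ k) : ∃ C : ℝ, 0 ≤ C ∧ ∀ T H : ℕ, 1 ≤ T → H ≤ T ^ 6 →
    ∑ c ∈ Cv 2 H, ((SelR c.1 c.2).ncard : ℝ) ^ k ≤
      C * ((T : ℝ) ^ 2 * (1 + Real.log ((3 * T : ℕ) : ℝ)) ^ gam 1 k) := by
  classical
  obtain ⟨C, hC0, hC⟩ := mom3 hk
  refine ⟨C * 27, by positivity, fun T H hT1 hT => ?_⟩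
  choose! e he1 he2 he3 using roots hT
  have hmaps : ∀ x ∈ Cv 2 H ×ˢ Icc (-(T : ℤ)) T, (fun i => e x.1 i + x.2) ∈
      (BoxJ 3 (3 * T)).filter (fun a => Function.Injective a) := by
    intro x hx
    rw [mem_product, mem_Icc] at hx
    rw [mem_filter, mem_BoxJ]
    refine ⟨fun i => ?_, fun i j h => he2 x.1 hx.1 (by
      have : e x.1 i + x.2 = e x.1 j + x.2 := h
      linarith)⟩
    have h1 := abs_le.1 (he3 x.1 hx.1 i)
    show (e x.1 i + x.2).natAbs ≤ 3 * T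
    omega
  have hinj : Set.InjOn (fun x : (ℤ × ℤ) × ℤ => (fun i => e x.1 i + x.2 : Fin 3 → ℤ))
      (Cv 2 H ×ˢ Icc (-(T : ℤ)) T : Finset ((ℤ × ℤ) × ℤ)) := by
    rintro ⟨c, t⟩ hx ⟨c', t'⟩ hx' h
    rw [mem_coe, mem_product] at hx hx'
    have s1 := (coef (he1 c hx.1)).1
    have s2 := (coef (he1 c' hx'.1)).1
    have h0 : e c 0 + t = e c' 0 + t' := congrFun h 0
    have h1 : e c 1 + t = e c' 1 + t' := congrFun h 1
    have h2 : e c 2 + t = e c' 2 + t' := congrFun h 2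
    have ht : t = t' := by linarith
    have hc : c = c' := by
      have q0 : e c 0 = e c' 0 := by linarith
      have q1 : e c 1 = e c' 1 := by linarith
      have q2 : e c 2 = e c' 2 := by linarith
      have p1 := coef (he1 c hx.1)
      have p2 := coef (he1 c' hx'.1)
      ext
      · rw [p1.2.1, p2.2.1, q0, q1, q2]
      · rw [p1.2.2, p2.2.2, q0, q1, q2]
    rw [hc, ht]
  have h1 : ∑ x ∈ Cv 2 H ×ˢ Icc (-(T : ℤ)) T, ((SelR x.1.1 x.1.2).ncard : ℝ) ^ k ≤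
      ∑ a ∈ (BoxJ 3 (3 * T)).filter (fun a => Function.Injective a),
        ((SelJ a).ncard : ℝ) ^ k := by
    calc ∑ x ∈ Cv 2 H ×ˢ Icc (-(T : ℤ)) T, ((SelR x.1.1 x.1.2).ncard : ℝ) ^ k
        ≤ ∑ x ∈ Cv 2 H ×ˢ Icc (-(T : ℤ)) T,
          ((SelJ (fun i => e x.1 i + x.2)).ncard : ℝ) ^ k := by
          refine sum_le_sum fun x hx => ?_
          rw [mem_product] at hx
          exact pow_le_pow_left₀ (Nat.cast_nonneg _)
            (by exact_mod_cast sel_le x.2 (he2 x.1 hx.1) (he1 x.1 hx.1)) _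
      _ = ∑ a ∈ (Cv 2 H ×ˢ Icc (-(T : ℤ)) T).image (fun x => (fun i => e x.1 i + x.2)),
          ((SelJ a).ncard : ℝ) ^ k := by
          rw [sum_image hinj]
      _ ≤ _ := by
          refine sum_le_sum_of_subset_of_nonneg ?_ fun a _ _ => by positivity
          intro a ha
          obtain ⟨x, hx, rfl⟩ := mem_image.1 ha
          exact hmaps x hx
  have h2 := h1.trans (hC (3 * T) (by omega))
  rw [sum_product] at h2
  simp only [sum_const, Int.card_Icc, nsmul_eq_mul] at h2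
  rw [← mul_sum] at h2
  have h3 : (((T : ℤ) + 1 - -(T : ℤ)).toNat : ℝ) = 2 * (T : ℝ) + 1 := by
    have : ((T : ℤ) + 1 - -(T : ℤ)).toNat = 2 * T + 1 := by omega
    rw [this]
    push_cast
    ring
  rw [h3] at h2
  have hT1r : (1 : ℝ) ≤ T := by exact_mod_cast hT1
  set S : ℝ := ∑ c ∈ Cv 2 H, ((SelR c.1 c.2).ncard : ℝ) ^ k with hS
  have hS0 : 0 ≤ S := sum_nonneg fun _ _ => by positivity
  set L : ℝ := (1 + Real.log ((3 * T : ℕ) : ℝ)) ^ gam 1 k with hL
  have h4 : (T : ℝ) * S ≤ (T : ℝ) * (C * 27 * ((T : ℝ) ^ 2 * L)) := by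
    have h5 : (T : ℝ) * S ≤ (2 * (T : ℝ) + 1) * S := mul_le_mul_of_nonneg_right (by linarith) hS0
    refine h5.trans (h2.trans (le_of_eq ?_))
    push_cast
    ring
  exact le_of_mul_le_mul_left h4 (by linarith)

/-- **the upper bound** -/
theorem upx {k : ℕ} (hk : 4 ≤ 2 ^ k) : ∃ (C : ℝ) (H0 : ℕ), 0 ≤ C ∧ ∀ H : ℕ, H0 ≤ H →
    ∑ c ∈ Cv 2 H, ((SelR c.1 c.2).ncard : ℝ) ^ k ≤
      C * (Real.log H) ^ gam 1 k * (Cv 2 H).card := by
  obtain ⟨C, hC0, hC⟩ := sum_le hk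
  obtain ⟨c, D, T0, hc, hlow⟩ := Pool.Agent.W672.FK.lowf
  have hγ : 0 ≤ gam 1 k := gam_nonneg (by omega)
  obtain ⟨m, hm⟩ : ∃ m : ℕ, 1 + Real.log (6 * (D + 1)) ≤ Real.log m := by
    obtain ⟨m, hm⟩ := exists_nat_ge (Real.exp (1 + Real.log (6 * (D + 1))))
    refine ⟨m, ?_⟩
    rw [Real.le_log_iff_exp_le (lt_of_lt_of_le (Real.exp_pos _) hm)]
    exact hm
  refine ⟨C * (2 * (D + 1)) ^ 2 * 2 ^ gam 1 k / c, (D + 1) * (T0 + 1) ^ 6 + m + 3, by positivity,
    fun H hH => ?_⟩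
  obtain ⟨T1, hT1a, hT1b, hT1c⟩ : ∃ T1 : ℕ, (D + 1) * T1 ^ 6 ≤ H ∧ H < (D + 1) * (T1 + 1) ^ 6 ∧
      T0 + 1 ≤ T1 := by
    have hT0H : T0 + 1 ≤ H := by
      have h1 : T0 + 1 ≤ (T0 + 1) ^ 6 := Nat.le_self_pow (by norm_num) _
      have h2 : (T0 + 1) ^ 6 ≤ (D + 1) * (T0 + 1) ^ 6 := Nat.le_mul_of_pos_left _ (by omega)
      omega
    refine ⟨Nat.findGreatest (fun w => (D + 1) * w ^ 6 ≤ H) H, ?_, ?_, ?_⟩
    · exact Nat.findGreatest_spec (P := fun w => (D + 1) * w ^ 6 ≤ H) (Nat.zero_le _)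
        (by simp)
    · by_contra hcon
      push Not at hcon
      have h1 : Nat.findGreatest (fun w => (D + 1) * w ^ 6 ≤ H) H + 1 ≤
          Nat.findGreatest (fun w => (D + 1) * w ^ 6 ≤ H) H := by
        apply Nat.le_findGreatest
        · refine le_trans ?_ hcon
          set q := Nat.findGreatest (fun w => (D + 1) * w ^ 6 ≤ H) H + 1
          calc q ≤ q ^ 6 := Nat.le_self_pow (by norm_num) q
            _ ≤ (D + 1) * q ^ 6 := Nat.le_mul_of_pos_left _ (by omega)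
        · exact hcon
      omega
    · apply Nat.le_findGreatest hT0H
      show (D + 1) * (T0 + 1) ^ 6 ≤ H
      omega
  obtain ⟨T, hTd⟩ : ∃ T : ℕ, T = (D + 1) * (T1 + 1) := ⟨_, rfl⟩
  have hT6 : H ≤ T ^ 6 := by
    rw [hTd, mul_pow]
    refine hT1b.le.trans (Nat.mul_le_mul_right _ (Nat.le_self_pow (by norm_num) _))
  have hT1 : 1 ≤ T := by
    rw [hTd]
    exact Nat.mul_pos (by omega) (by omega)
  have h1 := hC T H hT1 hT6
  have h2 := hlow T1 H (by omega) (le_trans (Nat.mul_le_mul_right _ (by omega)) hT1a)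
  have hTr : (T : ℝ) ≤ 2 * (D + 1) * T1 := by
    rw [hTd]
    push_cast
    have : (1 : ℝ) ≤ T1 := by exact_mod_cast (by omega : 1 ≤ T1)
    have hD : (0 : ℝ) ≤ D := Nat.cast_nonneg _
    nlinarith
  have hTH : T1 ≤ H := by
    calc T1 ≤ T1 ^ 6 := Nat.le_self_pow (by norm_num) _
      _ ≤ (D + 1) * T1 ^ 6 := Nat.le_mul_of_pos_left _ (by omega)
      _ ≤ H := hT1a
  have hH1 : (1 : ℝ) ≤ H := by exact_mod_cast (by omega : 1 ≤ H)
  have hlog : 1 + Real.log ((3 * T : ℕ) : ℝ) ≤ 2 * Real.log H := by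
    have e1 : ((3 * T : ℕ) : ℝ) ≤ 6 * (D + 1) * H := by
      push_cast
      have e2 : (T1 : ℝ) ≤ H := by exact_mod_cast hTH
      have hD : (0 : ℝ) ≤ D := Nat.cast_nonneg _
      calc 3 * (T : ℝ) ≤ 3 * (2 * (D + 1) * T1) := by linarith
        _ = 6 * (D + 1) * T1 := by ring
        _ ≤ 6 * (D + 1) * H := mul_le_mul_of_nonneg_left e2 (by positivity)
    have e3 : (0 : ℝ) < ((3 * T : ℕ) : ℝ) := by exact_mod_cast (by omega : 0 < 3 * T)
    have e4 := Real.log_le_log e3 e1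
    rw [Real.log_mul (by positivity) (by linarith)] at e4
    have e5 : Real.log m ≤ Real.log H := by
      rcases Nat.eq_zero_or_pos m with h0 | h0
      · rw [h0, Nat.cast_zero, Real.log_zero]
        exact Real.log_nonneg hH1
      · exact Real.log_le_log (by exact_mod_cast h0) (by exact_mod_cast (by omega : m ≤ H))
    linarith
  have hlogH : 0 ≤ Real.log H := Real.log_nonneg hH1
  have hL : (1 + Real.log ((3 * T : ℕ) : ℝ)) ^ gam 1 k ≤ 2 ^ gam 1 k * (Real.log H) ^ gam 1 k := by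
    rw [← Real.mul_rpow (by norm_num) hlogH]
    refine Real.rpow_le_rpow ?_ hlog hγ
    have := Real.log_natCast_nonneg (3 * T)
    linarith
  have hT2 : (T : ℝ) ^ 2 ≤ (2 * (D + 1)) ^ 2 * (T1 : ℝ) ^ 2 := by
    rw [← mul_pow]
    exact pow_le_pow_left₀ (Nat.cast_nonneg _) hTr 2
  have h3 : (T1 : ℝ) ^ 2 ≤ ((Cv 2 H).card : ℝ) / c := by
    rw [le_div_iff₀ hc]
    linarith
  have hP : (0 : ℝ) ≤ 2 ^ gam 1 k * (Real.log H) ^ gam 1 k :=
    mul_nonneg (by positivity) (Real.rpow_nonneg hlogH _)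
  calc ∑ c ∈ Cv 2 H, ((SelR c.1 c.2).ncard : ℝ) ^ k
      ≤ C * ((T : ℝ) ^ 2 * (1 + Real.log ((3 * T : ℕ) : ℝ)) ^ gam 1 k) := h1
    _ ≤ C * (((2 * (D + 1)) ^ 2 * (((Cv 2 H).card : ℝ) / c)) *
          (2 ^ gam 1 k * (Real.log H) ^ gam 1 k)) := by
        apply mul_le_mul_of_nonneg_left _ hC0
        refine mul_le_mul (hT2.trans (mul_le_mul_of_nonneg_left h3 (by positivity))) hL ?_
          (by positivity)
        apply Real.rpow_nonneg
        have := Real.log_natCast_nonneg (3 * T)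
        linarith
    _ = C * (2 * (D + 1)) ^ 2 * 2 ^ gam 1 k / c * (Real.log H) ^ gam 1 k * (Cv 2 H).card := by
        field_simp

end Pool.Agent.TH344.MO
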